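import Pool.Agent.Helper537_All.MainZ
import Pool.Agent.Helper537_All.Final
import Pool.Agent.Helper537_Sym.Num
import Pool.Agent.Helper537_Cos.Deg
import Pool.Agent.Helper537_Cos.Cos
import Pool.Agent.Helper537_Cos.Hor
set_option autoImplicit false

/-!
Beilinson's regulator on `K_2` of the elliptic and hyperelliptic curves `z + 1/z = F(x)` over `ℚ`,
`F = t + lam ∏_{i ≤ g} (x - b_i)`, `t ∈ {0, ±1, ±2}`, of every genus `g`: all classes in `K_2` of
the curve (unramified at all its closed points) which are sums of symbols `{z, u}`, `u` any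
function whose norm to `ℚ(x)` has no zero or pole `α` with `cos(2π/N) ∈ ℚ(α)`, and of symbols of
functions of `x`. They are integral, and Beilinson's regulator is an isomorphism on them. Here `N`
is a product of different primes `p ≥ 5` with `v_p(lam)` prime to `g + 1`.
-/

namespace Pool.Agent.Results.MP_a09a03_nt.CosineLevelIsomorphism

open Polynomial IntermediateField

open Pool.Agent.TH826.MK (KQ symb Torus Unramified)

open Pool.Agent.TH826.HD (PRing isDomain_PRing ppol)

open Pool.Agent.TH826.UH (Sepd sepd_fam sepd_int sepd_dist leadingCoeff_fam smooth_of_sepd)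

open Pool.Agent.Helper537_Sym (Fm regR emC dd crit17 critD main one_le_dist)

open Pool.Agent.Helper537_All (eP zF sig VZ Ez)

open Pool.Agent.Helper537_Cos (HUnr)

variable {g : ℕ}

/-- The polynomial `F = t + lam ∏_{i ≤ g} (x - b_i)`. -/
noncomputable def Fam (b : Fin (g + 1) → ℤ) (lam t : ℤ) : ℚ[X] :=
  C (t : ℚ) + C (lam : ℚ) * ∏ i, (X - C (b i : ℚ))

/-- The integers `b_i` as rational numbers. -/
def bq (b : Fin (g + 1) → ℤ) : Fin (g + 1) → ℚ := fun i => (b i : ℚ)

theorem emC_int (n : ℤ) : emC (n : ℚ) = (n : ℂ) := map_intCast emC n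

theorem fam_map (b : Fin (g + 1) → ℤ) (lam t : ℤ) :
    (Fam b lam t).map emC = C (t : ℂ) + C (lam : ℂ) * ∏ i, (X - C ((b i : ℤ) : ℂ)) := by
  unfold Fam
  simp only [Polynomial.map_add, Polynomial.map_mul, Polynomial.map_C, Polynomial.map_prod,
    Polynomial.map_sub, Polynomial.map_X, emC_int]

theorem fam_aeval (b : Fin (g + 1) → ℤ) (lam t : ℤ) (α : ℂ) :
    aeval α (Fam b lam t) = t + lam * ∏ i, (α - (b i : ℂ)) := by
  unfold Fam
  rw [map_add, map_mul, map_prod, aeval_C, aeval_C]
  simp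

theorem fam_eval (b : Fin (g + 1) → ℤ) (lam t : ℤ) (i : Fin (g + 1)) :
    (Fam b lam t).eval (bq b i) = t := by
  unfold Fam bq
  rw [eval_add, eval_C, eval_mul, eval_prod,
    Finset.prod_eq_zero (Finset.mem_univ i) (by simp), mul_zero, add_zero]

theorem fam_int (b : Fin (g + 1) → ℤ) (lam t : ℤ) (i : ℕ) :
    IsIntegral ℤ ((Fam b lam t).coeff i) := by
  have h : Fam b lam t = (C t + C lam * ∏ i, (X - C (b i)) : ℤ[X]).map (algebraMap ℤ ℚ) := by
    unfold Fam
    simp [Polynomial.map_prod]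
  rw [h, Polynomial.coeff_map]
  exact isIntegral_algebraMap

/-- For no complex root `α` of `P` the field `ℚ(α)` contains `cos(2π/N)`. -/
def NoCos (N : ℕ) (P : ℚ[X]) : Prop :=
  ∀ α : ℂ, aeval α P = 0 → Complex.cos (2 * Real.pi / N) ∉ ℚ⟮α⟯

/-- The function `u` on the curve has level prime to `N`: its norm `u σ(u)` to `ℚ(x)` (`σ` is the
involution `z ↦ 1/z`) is a quotient `P / R` of polynomials, and for no root `α` of `P` or of `R`
the field `ℚ(α)` contains `cos(2π/N)`. -/
def Level (F : ℚ[X]) (L : Type*) [Field L] [Algebra (PRing F) L] [IsFractionRing (PRing F) L]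
    (N : ℕ) (u : Lˣ) : Prop :=
  ∃ P R : ℚ[X], R ≠ 0 ∧ NoCos N P ∧ NoCos N R ∧
    (u : L) * sig F L u = algebraMap (PRing F) L (ppol F P) / algebraMap (PRing F) L (ppol F R)

/-- The space `V_N` generated by the symbols `{z, u}`, where `u` is a function of level prime to
`N`, and by all classes which are invariant under the involution `z ↦ 1/z` (for example all
symbols of functions of `x`). -/
noncomputable def V (F : ℚ[X]) (L : Type*) [Field L] [Algebra (PRing F) L]
    [IsFractionRing (PRing F) L] (N : ℕ) : Submodule ℚ (KQ L 2) :=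
  Submodule.span ℚ {s | ∃ u : Lˣ, Level F L N u ∧ s = symb ![zF F L, u]} ⊔
    LinearMap.eqLocus (KQ.map 2 (sig F L)) LinearMap.id

/-- The classes in `V_N` which are unramified at all discrete valuations of `L` that are trivial on
`ℚ` (these valuations are the closed points of the smooth projective curve `X` over `ℚ` with
function field `L`, so these are the classes in `V_N` that come from `K_2(X) ⊗ ℚ`). -/
noncomputable def VX (F : ℚ[X]) (L : Type*) [Field L] [Algebra (PRing F) L]
    [IsFractionRing (PRing F) L] (N : ℕ) : Submodule ℚ (KQ L 2) := V F L N ⊓ HUnr L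

/-- The complex points of the plane curve `z² - F(x) z + 1 = 0` are smooth. -/
def SmoothCurve (F : ℚ[X]) : Prop :=
  ∀ x z : ℂ, z ^ 2 - F.eval₂ emC x * z + 1 = 0 →
    2 * z - F.eval₂ emC x ≠ 0 ∨ (derivative F).eval₂ emC x * z ≠ 0

/-- The space `W` is spanned by the `g` classes `{z, x - b_k} - {z, x - b_0}`. -/
def SpannedBy (F : ℚ[X]) (b : Fin (g + 1) → ℤ) (L : Type*) [Field L] [Algebra (PRing F) L]
    (W : Submodule ℚ (KQ L 2)) : Prop :=
  ∃ x : Fin (g + 1) → Lˣ,
    (∀ i, (x i : L) = algebraMap (PRing F) L (ppol F (X - C (b i : ℚ)))) ∧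
    W = Submodule.span ℚ (Set.range fun k : Fin g =>
      symb ![zF F L, x k.succ] - symb ![zF F L, x 0])

/-- `N` is a product of at least one and pairwise different primes `p ≥ 5` such that `v_p(lam)` is
prime to `g + 1`. -/
def LevelCond (g : ℕ) (lam : ℤ) (N : ℕ) : Prop :=
  N ≠ 1 ∧ Squarefree N ∧ ∀ p : ℕ, p.Prime → p ∣ N → 5 ≤ p ∧ (padicValInt p lam).Coprime (g + 1)

theorem five_le {g : ℕ} (hg : g ≠ 0) {lam : ℤ} (hlam : lam ≠ 0) {N : ℕ}
    (hN : LevelCond g lam N) : 5 ≤ |lam| := by
  obtain ⟨p, hp, hpN⟩ := Nat.exists_prime_and_dvd hN.1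
  obtain ⟨h5, hc⟩ := hN.2.2 p hp hpN
  have h1 : padicValInt p lam ≠ 0 := by
    intro h0
    rw [h0, Nat.coprime_zero_left] at hc
    omega
  have h2 : (p : ℤ) ∣ lam := (dvd_pow_self _ h1).trans (padicValInt_dvd lam)
  have h3 := Int.le_of_dvd (abs_pos.2 hlam) ((dvd_abs _ _).2 h2)
  have h4 : (5 : ℤ) ≤ p := by exact_mod_cast h5
  omega

/-- Let `b_0, ..., b_g` be different integers, `lam ≠ 0` and `t` integers with `|t| ≤ 2`, and let
`N` be a product of at least one and pairwise different primes `p ≥ 5` such that `v_p(lam)` is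
prime to `g + 1`. Suppose that `g ≥ 6`, or `|lam| ≥ 17`, or that the mutual distances of the `b_i`
are at least `2`. Put `F = t + lam ∏ (x - b_i)`. Then the coordinate ring of the plane curve
`z² - F(x) z + 1 = 0` over `ℚ` is a domain and the curve is smooth at its complex points (it is the
affine part of a curve of genus `g`, for `g = 1` an elliptic curve).

Let `L` be the field of fractions of the coordinate ring, and let `V_N` be the subspace of
`K_2^M(L) ⊗ ℚ` generated by all classes which are invariant under the involution `σ : z ↦ 1/z` (for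
example all symbols of functions of `x`) and by the symbols `{z, u}`, where `u` is any non-zero
element of `L` whose norm `u σ(u)` to `ℚ(x)` has no zero or pole `α` with `cos(2π/N) ∈ ℚ(α)`. Then
the classes in `V_N` which are unramified at all discrete valuations of `L` that are trivial on `ℚ`
(the classes coming from `K_2` of the smooth projective curve over `ℚ`) are unramified at all
discrete valuations of `L` (they are integral), they are exactly the combinations of the `g`
classes `{z, x - b_k} - {z, x - b_0}`, they form a space of dimension exactly `g`, and there are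
`g` loops `Γ_l` in the spectrum of `L` such that the regulator `r ⊗ w ↦ (r reg_{Γ_l}(w))_l` from
its tensor product with `ℝ` to `ℝ^g` is bijective. -/
theorem result (g : ℕ) (b : Fin (g + 1) → ℤ) (hb : Function.Injective b) (lam t : ℤ)
    (hlam : lam ≠ 0) (ht : |t| ≤ 2) (N : ℕ) (hN : LevelCond g lam N)
    (h2 : 6 ≤ g ∨ 17 ≤ |lam| ∨ ∀ i j, i ≠ j → 2 ≤ |b i - b j|) :
    IsDomain (PRing (Fam b lam t)) ∧ SmoothCurve (Fam b lam t) ∧
    ∀ (L : Type*) [Field L] [Algebra (PRing (Fam b lam t)) L]
      [IsFractionRing (PRing (Fam b lam t)) L],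
      VX (Fam b lam t) L N ≤ Unramified L 2 ∧
      SpannedBy (Fam b lam t) b L (VX (Fam b lam t) L N) ∧
      Module.finrank ℚ (VX (Fam b lam t) L N) = g ∧
      ∃ Γ : Fin g → Torus L 1, Function.Bijective (regR Γ (VX (Fam b lam t) L N)) := by
  have hlam' : (lam : ℂ) ≠ 0 := Int.cast_ne_zero.2 hlam
  have hH : Fm (bq b) (Fam b lam t) (lam : ℚ) t :=
    ⟨Int.cast_ne_zero.2 hlam, fun i j hij => hb (by
      have h1 : (b i : ℚ) = (b j : ℚ) := hij
      exact_mod_cast h1), ht, rfl⟩
  have hti : ∀ i, ∃ (ζ : ℂ) (k : ℕ), k ≠ 0 ∧ ζ ^ k = 1 ∧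
      emC ((Fam b lam t).eval (bq b i)) = ζ + ζ⁻¹ := by
    intro i
    rw [fam_eval, emC_int]
    exact Pool.Agent.Y94.UG.exists_zeta ht
  have hdegF : 0 < (Fam b lam t).natDegree := by
    rw [hH.natDegree]
    exact Nat.succ_pos g
  have h5 : g ≠ 0 → (5 : ℝ) ≤ |(lam : ℝ)| := by
    intro hg
    have h3 := five_le hg hlam hN
    exact_mod_cast h3
  have hlamR : (1 : ℝ) ≤ |(lam : ℝ)| := by
    have := Int.one_le_abs hlam
    exact_mod_cast this
  have htR : |(t : ℝ)| ≤ 2 := by exact_mod_cast ht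
  have htn : ‖(t : ℂ)‖ ≤ 2 := by
    rw [Complex.norm_intCast]
    exact_mod_cast ht
  have hmap := fam_map b lam t
  have hlead : ‖((Fam b lam t).map emC).leadingCoeff‖ = |(lam : ℝ)| := by
    rw [leadingCoeff_fam hlam' hmap, Complex.norm_intCast]
  have hsb : (fun j => emC (bq b j)) = fun j => ((b j : ℤ) : ℂ) := by
    funext j
    exact emC_int _
  have hdist : ∀ i j, ‖emC (bq b j) - emC (bq b i)‖ = |(b i : ℝ) - b j| := by
    intro i j
    have h1 : emC (bq b j) - emC (bq b i) = (((b j : ℝ) - b i : ℝ) : ℂ) := by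
      rw [show emC (bq b i) = ((b i : ℤ) : ℂ) from emC_int _,
        show emC (bq b j) = ((b j : ℤ) : ℂ) from emC_int _]
      push_cast
      ring
    rw [h1, Complex.norm_real, Real.norm_eq_abs, abs_sub_comm]
  have hdistD : ∀ D : ℝ, 2 ≤ D → (∀ i j, i ≠ j → D ≤ |(b i : ℝ) - b j|) →
      (2 + |(t : ℝ)|) * 2 ^ (g + 1) < |(lam : ℝ)| * D ^ (g + 1) → ∃ ρ η : ℝ,
      Sepd ((Fam b lam t).map emC) (fun j => ((b j : ℤ) : ℂ)) ρ η ∧
      (∀ i j, i ≠ j → 0 < dd b ρ i j) ∧
      ∀ p q, p ≠ q → 0 ≤ Real.log |(lam : ℝ)| + Real.log (dd b ρ p q) +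
        Real.log (dd b ρ q p) + ∑ j ∈ (Finset.univ.erase p).erase q,
          Real.log (min (dd b ρ p j) (dd b ρ q j)) := by
    intro D hD hsep hlt
    obtain ⟨η, H⟩ := sepd_dist (b := fun i => ((b i : ℤ) : ℂ)) hlam' hmap hD (fun i j hij => by
      rw [← Int.cast_sub, Complex.norm_intCast, Int.cast_sub]
      exact hsep i j hij) htn (by
      rw [Complex.norm_intCast, Complex.norm_intCast]
      exact hlt)
    refine ⟨D / 2, η, H, fun i j hij => ?_, fun p q hpq => critD hD hsep hlamR p q hpq⟩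
    have := hsep i j hij
    unfold dd
    linarith
  obtain ⟨ρ, η, H, hpos, hcrit⟩ : ∃ ρ η : ℝ,
      Sepd ((Fam b lam t).map emC) (fun j => emC (bq b j)) ρ η ∧
      (∀ i j, i ≠ j → 0 < dd b ρ i j) ∧
      ∀ p q, p ≠ q → 0 ≤ Real.log |(lam : ℝ)| + Real.log (dd b ρ p q) +
        Real.log (dd b ρ q p) + ∑ j ∈ (Finset.univ.erase p).erase q,
          Real.log (min (dd b ρ p j) (dd b ρ q j)) := by
    rw [hsb]
    rcases h2 with hg | h17 | hsep
    · obtain ⟨η, H⟩ : ∃ η, Sepd ((Fam b lam t).map emC) (fun i => ((b i : ℤ) : ℂ)) (1 / 8) η := by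
        refine sepd_fam (b := fun i => ((b i : ℤ) : ℂ)) hlam' hmap (B := 403 / 100) (by norm_num)
          (fun i j hij => ?_) htn (fun x hx => Pool.Agent.Y94.UG.prod_dist hg hb hx) ?_
        · rw [← Int.cast_sub, Complex.norm_intCast, Int.cast_sub]
          have := one_le_dist hb hij
          linarith
        · have h3 : (1 : ℝ) ≤ ‖(lam : ℂ)‖ := by
            rw [Complex.norm_intCast]
            exact hlamR
          linarith
      refine ⟨1 / 8, η, H, fun i j hij => ?_, fun p q hpq => ?_⟩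
      · have := one_le_dist hb hij
        unfold dd
        linarith
      · have h1 := Pool.Agent.Y94.UG.crit hg hb p q hpq
        have h2 := Real.log_nonneg hlamR
        unfold dd
        linarith
    · have h17' : (17 : ℝ) ≤ |(lam : ℝ)| := by exact_mod_cast h17
      obtain ⟨η, H⟩ := sepd_int hb hlam' hmap htn (by
        rw [Complex.norm_intCast]
        exact h17')
      refine ⟨1 / 2, η, H, fun i j hij => ?_, fun p q hpq => crit17 hb h17' p q hpq⟩
      have := one_le_dist hb hij
      unfold dd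
      linarith
    · by_cases hg0 : g = 0
      · refine hdistD 9 (by norm_num) (fun i j hij => ?_) ?_
        · have h3 := i.isLt
          have h4 := j.isLt
          exact absurd (Fin.ext (by omega)) hij
        · rw [hg0]
          norm_num
          linarith
      · have h5' := h5 hg0
        refine hdistD 2 le_rfl (fun i j hij => ?_) ?_
        · have h3 := hsep i j hij
          exact_mod_cast h3
        · refine mul_lt_mul_of_pos_right ?_ (by positivity)
          linarith
  refine ⟨isDomain_PRing hdegF, fun x z h => smooth_of_sepd H h, ?_⟩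
  intro L _ _ _
  have hN0 : N ≠ 0 := hN.2.1.ne_zero
  have hQ : ∀ P : ℚ[X], P ≠ 0 → NoCos N P → ∀ π : ℚ[X], π.Monic → Irreducible π → π ∣ P →
      π ∉ Pool.Agent.Helper537_All.TB (Fam b lam t) L → (∃ i, π = X - C (bq b i)) ∨
      Pool.Agent.Helper537_Sym.sy (zF (Fam b lam t) L)
        (Pool.Agent.Helper537_All.pu (eP (Fam b lam t) L) π) ∈
        Pool.Agent.Helper537_All.Fz (Fam b lam t) L := by
    intro P _ hPN π hm hi hdP hTB
    obtain ⟨α, hα⟩ := Pool.Agent.Helper537_All.exists_croot hi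
    have hαP : aeval α P = 0 := by
      obtain ⟨R, rfl⟩ := hdP
      rw [map_mul, hα, zero_mul]
    have hcos := hPN α hαP
    obtain ⟨n, hn, h1⟩ := Pool.Agent.Helper537_All.not_tb hm hi hTB
    obtain ⟨ζ, hζ0, hζn, hζ⟩ := h1 α hα
    by_cases hbi : ∃ i, α = ((bq b i : ℚ) : ℂ)
    · obtain ⟨i, rfl⟩ := hbi
      exact Or.inl ⟨i, Pool.Agent.Helper537_All.eq_of_root hm hi hα⟩
    · right
      refine Pool.Agent.Helper537_All.zπ_mem hdegF hm hi hα hζ0 (Nat.pos_of_ne_zero hn) hζn hζ ?_
      have hαi : IsIntegral ℚ α := ⟨π, hm, hα⟩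
      have hfin : 0 < orderOf ζ := orderOf_pos_iff.2
        (isOfFinOrder_iff_pow_eq_one.2 ⟨n, Nat.pos_of_ne_zero hn, hζn⟩)
      have : NeZero (orderOf ζ) := ⟨hfin.ne'⟩
      obtain ⟨q, hq, hqN, hqm⟩ : ∃ q : ℕ, q.Prime ∧ q ∣ N ∧ ¬ q ∣ orderOf ζ := by
        by_contra hall
        push Not at hall
        have hd : N ∣ orderOf ζ := by
          rw [← Nat.prod_primeFactors_of_squarefree hN.2.1]
          refine Finset.prod_primes_dvd _ (fun q hq => ?_) (fun q hq => ?_)
          · exact (Nat.prime_of_mem_primeFactors hq).prime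
          · exact hall q (Nat.prime_of_mem_primeFactors hq) (Nat.dvd_of_mem_primeFactors hq)
        refine hcos (Pool.Agent.Helper537_Cos.cos_mem hfin.ne' hd
          (IsPrimitiveRoot.orderOf ζ) (S := ℚ⟮α⟯) ?_)
        rw [← hζ]
        exact IntermediateField.algebra_adjoin_le_adjoin ℚ {α}
          (Polynomial.aeval_mem_adjoin_singleton ℚ α)
      obtain ⟨hq5, hcq⟩ := hN.2.2 q hq hqN
      have h2 := fam_aeval b lam t α
      rw [hζ] at h2
      have h3 : (lam : ℂ) * ∏ i, (α - (b i : ℂ)) = ζ + ζ⁻¹ - t := by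
        rw [h2]
        ring
      have h4 : ζ + ζ⁻¹ - t ≠ 0 := by
        rw [← h3]
        refine mul_ne_zero hlam' (Finset.prod_ne_zero_iff.2 fun i _ => ?_)
        intro h5
        apply hbi
        refine ⟨i, ?_⟩
        unfold bq
        push_cast
        exact sub_eq_zero.1 h5
      have h5 := Pool.Agent.Helper537_Cos.deg_dvd1 (IsPrimitiveRoot.orderOf ζ)
        hlam ht hq hq5 hqm hcq h4 hαi h3
      rw [hH.natDegree, hζ]
      exact Nat.le_of_dvd (minpoly.natDegree_pos hαi.tower_top) h5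
  have hQ1 : NoCos N 1 := fun α hα => by
    rw [map_one] at hα
    exact absurd hα one_ne_zero
  have hQb : ∀ i, NoCos N ((X - C (bq b i)) ^ 2) := by
    intro i α hα
    rw [map_pow, pow_eq_zero_iff two_ne_zero, map_sub, aeval_X, aeval_C, sub_eq_zero] at hα
    obtain ⟨q, hq, hqN⟩ := Nat.exists_prime_and_dvd hN.1
    rw [hα]
    exact Pool.Agent.Helper537_Cos.cos_not_mem hN0 hq (hN.2.2 q hq hqN).1 hqN (bq b i)
  obtain ⟨hmain, hint⟩ := Pool.Agent.Helper537_Cos.main1_hor hH (fam_int b lam t) (fun i => by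
      unfold bq
      exact isIntegral_algebraMap (R := ℤ) (x := b i)) hti L (Q := NoCos N) hQ1 hQb hQ
  replace hmain : VX (Fam b lam t) L N = Ez (Fam b lam t) L (bq b) := hmain
  refine ⟨hmain ▸ hint, ?_, ?_⟩
  · refine ⟨fun i => Pool.Agent.Helper537_All.pu (eP (Fam b lam t) L) (X - C (bq b i)),
      fun i => Pool.Agent.Helper537_All.pu_val Pool.Agent.Helper537_All.eP_inj
        (X_sub_C_ne_zero _), ?_⟩
    rw [hmain]
    rfl
  rw [hmain]
  refine Pool.Agent.Helper537_All.main2 hH H (dd b ρ)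
    (fun i j hij => ⟨hpos i j hij, ?_⟩) (fun p q hpq => ?_) hti L
  · rw [hdist]
    unfold dd
    linarith
  · rw [hlead]
    exact hcrit p q hpq

end Pool.Agent.Results.MP_a09a03_nt.CosineLevelIsomorphism
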