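import Pool.Agent.Helper537_Sym.Num
set_option autoImplicit false

/-!
Beilinson's regulator on integral `K_2` of the hyperelliptic curves `z + 1/z = F(x)` over `ℚ`,
`F = t + lam ∏_{i ≤ g} (x - b_i)`, `t ∈ {0, ±1, ±2}`, for every genus `g`: it is an isomorphism on
the part of the integral classes that is generated by the symbols of the units of the ring obtained
from the coordinate ring of the curve by inverting all functions `x - c`, where `c` runs over the
integers (and over almost all rational numbers).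
-/

namespace Pool.Agent.Results.MP_a09a03_nt.SymbolIsomorphism

open Polynomial

open Pool.Agent.TH826.MK (KQ Torus Unramified)

open Pool.Agent.TH826.HD (PRing isDomain_PRing)

open Pool.Agent.TH826.UH (Sepd sepd_fam sepd_int sepd_dist leadingCoeff_fam smooth_of_sepd)

open Pool.Agent.Helper537_Sym (Fm Adm adm_of_int Cls regR emC dd crit17 critD five_le main
  one_le_dist)

variable {g : ℕ}

/-- The polynomial `F = t + lam ∏_{i ≤ g} (x - b_i)`. -/
noncomputable def Fam (b : Fin (g + 1) → ℤ) (lam t : ℤ) : ℚ[X] :=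
  C (t : ℚ) + C (lam : ℚ) * ∏ i, (X - C (b i : ℚ))

/-- The integers `b_i` as rational numbers. -/
def bq (b : Fin (g + 1) → ℤ) : Fin (g + 1) → ℚ := fun i => (b i : ℚ)

theorem emC_int (n : ℤ) : emC (n : ℚ) = (n : ℂ) := map_intCast emC n

theorem fam_map (b : Fin (g + 1) → ℤ) (lam t : ℤ) :
    (Fam b lam t).map emC = C (t : ℂ) + C (lam : ℂ) * ∏ i, (X - C ((b i : ℤ) : ℂ)) := by
  unfold Fam
  simp only [Polynomial.map_add, Polynomial.map_mul, Polynomial.map_C, Polynomial.map_prod,
    Polynomial.map_sub, Polynomial.map_X, emC_int]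

theorem fam_eval_int (b : Fin (g + 1) → ℤ) (lam t c : ℤ) :
    (Fam b lam t).eval (c : ℚ) = ((t + lam * ∏ i, (c - b i) : ℤ) : ℚ) := by
  unfold Fam
  rw [eval_add, eval_C, eval_mul, eval_prod, eval_C]
  push_cast
  simp

theorem fam_eval (b : Fin (g + 1) → ℤ) (lam t : ℤ) (i : Fin (g + 1)) :
    (Fam b lam t).eval (bq b i) = t := by
  unfold Fam bq
  rw [eval_add, eval_C, eval_mul, eval_prod,
    Finset.prod_eq_zero (Finset.mem_univ i) (by simp), mul_zero, add_zero]

theorem fam_int (b : Fin (g + 1) → ℤ) (lam t : ℤ) (i : ℕ) :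
    IsIntegral ℤ ((Fam b lam t).coeff i) := by
  have h : Fam b lam t = (C t + C lam * ∏ i, (X - C (b i)) : ℤ[X]).map (algebraMap ℤ ℚ) := by
    unfold Fam
    simp [Polynomial.map_prod]
  rw [h, Polynomial.coeff_map]
  exact isIntegral_algebraMap

/-- Let `b_0, ..., b_g` be different integers, `lam ≠ 0` and `t` integers with `|t| ≤ 2`, and
suppose that `g ≥ 6`, or `|lam| ≥ 17`, or the mutual distances of the `b_i` are at least `D ≥ 2`
with `(2 + |t|) 2 ^ (g + 1) < |lam| D ^ (g + 1)`. Put `F = t + lam ∏ (x - b_i)`. Then the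
coordinate ring `A` of the plane curve `z² - F(x) z + 1 = 0` over `ℚ` is a domain and the curve is
smooth at its complex points (it is the affine part of a hyperelliptic curve of genus `g`).

Call a rational number `c` admissible if it is one of the `b_i`, or `F(c)² - 4` is not a square in
`ℚ` and `F(c) ∉ {0, 1, -1}`; if `g ≥ 6` or `|lam| ≥ 17` all integers are admissible. Let `L` be the
field of fractions of `A`, let `O = A[1/(x - c) : c admissible]` (the ring `OO`), and let `Cls` be
the space of the elements of `K_2^M(L) ⊗ ℚ` that are combinations of symbols of units of `O` and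
unramified at all discrete valuations of `L` (integral classes). Then `Cls` has dimension exactly
`g`, and there are `g` loops `Γ_l` in the spectrum of `L` such that the regulator
`ℝ ⊗ Cls → ℝ^g`, `r ⊗ w ↦ (r reg_{Γ_l}(w))_l`, is bijective. -/
theorem result (g : ℕ) (b : Fin (g + 1) → ℤ) (hb : Function.Injective b) (lam t : ℤ)
    (hlam : lam ≠ 0) (ht : |t| ≤ 2)
    (h : 6 ≤ g ∨ 17 ≤ |lam| ∨ ∃ D : ℝ, 2 ≤ D ∧ (∀ i j, i ≠ j → D ≤ |(b i : ℝ) - b j|) ∧
      (2 + |(t : ℝ)|) * 2 ^ (g + 1) < |(lam : ℝ)| * D ^ (g + 1)) :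
    IsDomain (PRing (Fam b lam t)) ∧
    (∀ x z : ℂ, z ^ 2 - (Fam b lam t).eval₂ emC x * z + 1 = 0 →
      2 * z - (Fam b lam t).eval₂ emC x ≠ 0 ∨
      (derivative (Fam b lam t)).eval₂ emC x * z ≠ 0) ∧
    (6 ≤ g ∨ 17 ≤ |lam| → ∀ c : ℤ, Adm (Fam b lam t) (bq b) (c : ℚ)) ∧
    ∀ (L : Type*) [Field L] [Algebra (PRing (Fam b lam t)) L]
      [IsFractionRing (PRing (Fam b lam t)) L],
      Module.finrank ℚ (Cls (Fam b lam t) (bq b) L) = g ∧
      ∃ Γ : Fin g → Torus L 1, Function.Bijective (regR Γ (Cls (Fam b lam t) (bq b) L)) := by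
  have hlam' : (lam : ℂ) ≠ 0 := Int.cast_ne_zero.2 hlam
  have hlamR : (1 : ℝ) ≤ |(lam : ℝ)| := by
    have := Int.one_le_abs hlam
    exact_mod_cast this
  have htn : ‖(t : ℂ)‖ ≤ 2 := by
    rw [Complex.norm_intCast]
    exact_mod_cast ht
  have hmap := fam_map b lam t
  have hlead : ‖((Fam b lam t).map emC).leadingCoeff‖ = |(lam : ℝ)| := by
    rw [leadingCoeff_fam hlam' hmap, Complex.norm_intCast]
  have hsb : (fun j => emC (bq b j)) = fun j => ((b j : ℤ) : ℂ) := by
    funext j
    exact emC_int _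
  have hdist : ∀ i j, ‖emC (bq b j) - emC (bq b i)‖ = |(b i : ℝ) - b j| := by
    intro i j
    have h1 : emC (bq b j) - emC (bq b i) = (((b j : ℝ) - b i : ℝ) : ℂ) := by
      rw [show emC (bq b i) = ((b i : ℤ) : ℂ) from emC_int _,
        show emC (bq b j) = ((b j : ℤ) : ℂ) from emC_int _]
      push_cast
      ring
    rw [h1, Complex.norm_real, Real.norm_eq_abs, abs_sub_comm]
  have hH : Fm (bq b) (Fam b lam t) (lam : ℚ) t :=
    ⟨Int.cast_ne_zero.2 hlam, fun i j hij => hb (by
      have h1 : (b i : ℚ) = (b j : ℚ) := hij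
      exact_mod_cast h1), ht, rfl⟩
  have hti : ∀ i, ∃ (ζ : ℂ) (k : ℕ), k ≠ 0 ∧ ζ ^ k = 1 ∧
      emC ((Fam b lam t).eval (bq b i)) = ζ + ζ⁻¹ := by
    intro i
    rw [fam_eval, emC_int]
    exact Pool.Agent.Y94.UG.exists_zeta ht
  obtain ⟨ρ, η, H, hpos, hcrit⟩ : ∃ ρ η : ℝ,
      Sepd ((Fam b lam t).map emC) (fun j => emC (bq b j)) ρ η ∧
      (∀ i j, i ≠ j → 0 < dd b ρ i j) ∧
      ∀ p q, p ≠ q → 0 ≤ Real.log |(lam : ℝ)| + Real.log (dd b ρ p q) +
        Real.log (dd b ρ q p) + ∑ j ∈ (Finset.univ.erase p).erase q,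
          Real.log (min (dd b ρ p j) (dd b ρ q j)) := by
    rw [hsb]
    rcases h with hg | h17 | ⟨D, hD, hsep, hlt⟩
    · obtain ⟨η, H⟩ : ∃ η, Sepd ((Fam b lam t).map emC) (fun i => ((b i : ℤ) : ℂ)) (1 / 8) η := by
        refine sepd_fam (b := fun i => ((b i : ℤ) : ℂ)) hlam' hmap (B := 403 / 100) (by norm_num)
          (fun i j hij => ?_) htn (fun x hx => Pool.Agent.Y94.UG.prod_dist hg hb hx) ?_
        · rw [← Int.cast_sub, Complex.norm_intCast, Int.cast_sub]
          have := one_le_dist hb hij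
          linarith
        · have h3 : (1 : ℝ) ≤ ‖(lam : ℂ)‖ := by
            rw [Complex.norm_intCast]
            exact hlamR
          linarith
      refine ⟨1 / 8, η, H, fun i j hij => ?_, fun p q hpq => ?_⟩
      · have := one_le_dist hb hij
        unfold dd
        linarith
      · have h1 := Pool.Agent.Y94.UG.crit hg hb p q hpq
        have h2 := Real.log_nonneg hlamR
        unfold dd
        linarith
    · have h17' : (17 : ℝ) ≤ |(lam : ℝ)| := by exact_mod_cast h17
      obtain ⟨η, H⟩ := sepd_int hb hlam' hmap htn (by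
        rw [Complex.norm_intCast]
        exact h17')
      refine ⟨1 / 2, η, H, fun i j hij => ?_, fun p q hpq => crit17 hb h17' p q hpq⟩
      have := one_le_dist hb hij
      unfold dd
      linarith
    · obtain ⟨η, H⟩ := sepd_dist (b := fun i => ((b i : ℤ) : ℂ)) hlam' hmap hD (fun i j hij => by
        rw [← Int.cast_sub, Complex.norm_intCast, Int.cast_sub]
        exact hsep i j hij) htn (by
        rw [Complex.norm_intCast, Complex.norm_intCast]
        exact hlt)
      refine ⟨D / 2, η, H, fun i j hij => ?_, fun p q hpq => critD hD hsep hlamR p q hpq⟩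
      have := hsep i j hij
      unfold dd
      linarith
  have hdegF : 0 < (Fam b lam t).natDegree := by
    rw [hH.natDegree]
    exact Nat.succ_pos g
  refine ⟨isDomain_PRing hdegF, fun x z h => smooth_of_sepd H h, fun hint c => ?_, ?_⟩
  · by_cases hc : ∃ i, b i = c
    · obtain ⟨i, rfl⟩ := hc
      exact Or.inl ⟨i, rfl⟩
    · push Not at hc
      refine adm_of_int (fam_eval_int b lam t c) ?_
      have h1 := five_le hb hlam hint hc
      have h2 := abs_sub_abs_le_abs_sub (lam * ∏ i, (c - b i)) (-t)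
      rw [abs_neg, sub_neg_eq_add, add_comm (lam * _) t] at h2
      omega
  · intro L _ _ _
    refine main hH H (dd b ρ) (fun i j hij => ⟨hpos i j hij, ?_⟩) (fun p q hpq => ?_)
      (fam_int b lam t) (fun i => ?_) hti L
    · rw [hdist]
      unfold dd
      linarith
    · rw [hlead]
      exact hcrit p q hpq
    · unfold bq
      exact isIntegral_algebraMap (R := ℤ) (x := b i)

end Pool.Agent.Results.MP_a09a03_nt.SymbolIsomorphism
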